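import Mathlib
import Pool.Agent.W277.UC.Core2

/-!
# Rational maps with a gap: test functions
-/

namespace Pool.Agent.W277.UE

open Finset Polynomial Pool.Agent.W277.UB Pool.Agent.W277.UC PlaceData

variable {k K : Type*} [Field k] [Field K] [Algebra k K]

/-- The map `(A z ^ d + a(z)) / b(z)`. -/
noncomputable def ww (d : ℕ) (A : K) (a b : K[X]) (z : K) : K :=
  (A * z ^ d + a.eval z) / b.eval z

/-- Finite stable sets. -/
structure StabR (e d : ℕ) (A : K) (a b : K[X]) (P : Finset K) : Prop where
  hA : A ≠ 0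
  ha : a.natDegree ≤ e
  hb : b.natDegree ≤ e
  hb0 : b ≠ 0
  hP : ∀ z ∈ P, b.eval z ≠ 0 → ww d A a b z ∈ P

/-- The test functions `z ^ j`, `w z ^ j`. -/
noncomputable def psi (e d : ℕ) (A : K) (a b : K[X]) (j : Fin ((e + 1) + (e + 1))) (z : K) : K :=
  Fin.addCases (fun i : Fin (e + 1) => z ^ (i : ℕ))
    (fun i : Fin (e + 1) => ww d A a b z * z ^ (i : ℕ)) j

/-- Their weights. -/
def kapR (e : ℕ) (j : Fin ((e + 1) + (e + 1))) : ℕ :=
  Fin.addCases (fun i : Fin (e + 1) => (i : ℕ)) (fun i : Fin (e + 1) => (i : ℕ) + 1) j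

/-- The coefficients of the relation. -/
noncomputable def alR (e : ℕ) (A : K) (a b : K[X]) (j : Fin ((e + 1) + (e + 1))) : K :=
  Fin.addCases (fun i : Fin (e + 1) => - a.coeff i / A) (fun i : Fin (e + 1) => b.coeff i / A) j

lemma sum_kapR (e : ℕ) : ∑ j, kapR e j = (e + 1) ^ 2 := by
  rw [Fin.sum_univ_add]
  simp only [kapR, Fin.addCases_left, Fin.addCases_right]
  rw [Finset.sum_add_distrib, Finset.sum_const, Finset.card_univ, Fintype.card_fin, smul_eq_mul,
    mul_one, ← Finset.sum_range (fun i => i)]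
  have h := Finset.sum_range_id_mul_two (e + 1)
  rw [Nat.add_sub_cancel] at h
  nlinarith

lemma psi_rel {e d : ℕ} {A : K} {a b : K[X]} (hA : A ≠ 0) (ha : a.natDegree ≤ e)
    (hb : b.natDegree ≤ e) {z : K} (hz : b.eval z ≠ 0) :
    z ^ d = ∑ j, alR e A a b j * psi e d A a b j z := by
  rw [Fin.sum_univ_add]
  simp only [alR, psi, Fin.addCases_left, Fin.addCases_right]
  have h1 : a.eval z = ∑ i : Fin (e + 1), a.coeff i * z ^ (i : ℕ) := by
    rw [eval_eq_sum_range' (show a.natDegree < e + 1 by omega), Finset.sum_range]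
  have h2 : b.eval z = ∑ i : Fin (e + 1), b.coeff i * z ^ (i : ℕ) := by
    rw [eval_eq_sum_range' (show b.natDegree < e + 1 by omega), Finset.sum_range]
  have h3 : ∑ i : Fin (e + 1), -a.coeff i / A * z ^ (i : ℕ) = - a.eval z / A := by
    rw [h1, ← Finset.sum_neg_distrib, Finset.sum_div]
    refine Finset.sum_congr rfl fun i _ => ?_
    ring
  have h4 : ∑ i : Fin (e + 1), b.coeff i / A * (ww d A a b z * z ^ (i : ℕ)) =
      ww d A a b z * b.eval z / A := by
    rw [h2, Finset.mul_sum, Finset.sum_div]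
    refine Finset.sum_congr rfl fun i _ => ?_
    ring
  rw [h3, h4]
  unfold ww
  field_simp
  ring

/-- Few points on which all determinants vanish. -/
lemma psi_N {e d : ℕ} {A : K} {a b : K[X]} (hA : A ≠ 0) (ha : a.natDegree ≤ e)
    (hb : b.natDegree ≤ e) (hb0 : b ≠ 0) (hed : 2 * e < d) (Y : Finset K)
    (hYb : ∀ z ∈ Y, b.eval z ≠ 0) (hY : d + e < Y.card) :
    ∃ z : Fin ((e + 1) + (e + 1)) → K, Function.Injective z ∧ (∀ i, z i ∈ Y) ∧
      Edet (psi e d A a b) z ≠ 0 := by
  classical
  by_contra hcon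
  push Not at hcon
  obtain ⟨β, hβ, hβY⟩ := exists_relation (psi e d A a b) (Y : Set K)
    (fun z hz hzY => hcon z hz hzY)
  set B0 : K[X] := ∑ i : Fin (e + 1), C (β (Fin.castAdd (e + 1) i)) * X ^ (i : ℕ) with hB0
  set B1 : K[X] := ∑ i : Fin (e + 1), C (β (Fin.natAdd (e + 1) i)) * X ^ (i : ℕ) with hB1
  have hdeg : ∀ γ : Fin (e + 1) → K, (∑ i : Fin (e + 1), C (γ i) * X ^ (i : ℕ)).natDegree ≤ e := by
    intro γ
    apply natDegree_sum_le_of_forall_le
    intro i _
    refine (natDegree_C_mul_X_pow_le _ _).trans ?_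
    have := i.is_lt
    omega
  have hcoef : ∀ (γ : Fin (e + 1) → K) (i : Fin (e + 1)),
      (∑ i : Fin (e + 1), C (γ i) * X ^ (i : ℕ)).coeff i = γ i := by
    intro γ i
    rw [finsetSum_coeff, Finset.sum_eq_single i]
    · rw [coeff_C_mul_X_pow, if_pos rfl]
    · intro j _ hj
      rw [coeff_C_mul_X_pow, if_neg]
      intro h
      exact hj (Fin.ext h.symm)
    · intro h
      exact absurd (Finset.mem_univ i) h
  set R : K[X] := B0 * b + B1 * (C A * X ^ d + a) with hR
  have hRY : ∀ z ∈ Y, R.eval z = 0 := by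
    intro z hz
    have h1 := hβY z hz
    rw [Fin.sum_univ_add] at h1
    simp only [psi, Fin.addCases_left, Fin.addCases_right] at h1
    have h2 : B0.eval z = ∑ i : Fin (e + 1), β (Fin.castAdd (e + 1) i) * z ^ (i : ℕ) := by
      rw [hB0, eval_finsetSum]
      simp
    have h3 : B1.eval z = ∑ i : Fin (e + 1), β (Fin.natAdd (e + 1) i) * z ^ (i : ℕ) := by
      rw [hB1, eval_finsetSum]
      simp
    have h4 : B0.eval z + ww d A a b z * B1.eval z = 0 := by
      rw [h2, h3, Finset.mul_sum, ← h1]
      congr 1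
      refine Finset.sum_congr rfl fun i _ => ?_
      ring
    have hbz := hYb z hz
    have h5 : R.eval z = b.eval z * (B0.eval z + ww d A a b z * B1.eval z) := by
      rw [hR]
      simp only [eval_add, eval_mul, eval_C, eval_pow, eval_X]
      unfold ww
      field_simp
    rw [h5, h4, mul_zero]
  have hRd : R.natDegree ≤ d + e := by
    rw [hR]
    refine (natDegree_add_le _ _).trans (max_le ?_ ?_)
    · refine natDegree_mul_le.trans ?_
      have h1 : B0.natDegree ≤ e := hdeg fun i => β (Fin.castAdd (e + 1) i)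
      omega
    · refine natDegree_mul_le.trans ?_
      have h1 : B1.natDegree ≤ e := hdeg fun i => β (Fin.natAdd (e + 1) i)
      have h2 : (C A * X ^ d + a).natDegree ≤ d := by
        refine (natDegree_add_le _ _).trans (max_le ?_ (by omega))
        exact natDegree_C_mul_X_pow_le _ _
      omega
  have hR0 : R ≠ 0 := by
    intro hR0
    by_cases hB10 : B1 = 0
    · have h1 : B0 * b = 0 := by
        rw [hR, hB10, zero_mul, add_zero] at hR0
        exact hR0
      rcases mul_eq_zero.mp h1 with h2 | h2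
      · apply hβ
        funext j
        refine Fin.addCases (fun i => ?_) (fun i => ?_) j
        · rw [← hcoef (fun i => β (Fin.castAdd (e + 1) i)) i, ← hB0, h2]
          simp
        · rw [← hcoef (fun i => β (Fin.natAdd (e + 1) i)) i, ← hB1, hB10]
          simp
      · exact hb0 h2
    · -- compare the coefficients of degree `d + deg B1`
      have h1 : R.coeff (d + B1.natDegree) = B1.leadingCoeff * A := by
        have h2 : R = B0 * b + B1 * a + B1 * C A * X ^ d := by
          rw [hR]
          ring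
        rw [h2, coeff_add, coeff_add, add_comm d, coeff_mul_X_pow, coeff_mul_C]
        have hd0 := hdeg fun i => β (Fin.castAdd (e + 1) i)
        have hd1 := hdeg fun i => β (Fin.natAdd (e + 1) i)
        rw [← hB0] at hd0
        rw [← hB1] at hd1
        rw [coeff_eq_zero_of_natDegree_lt (p := B0 * b), coeff_eq_zero_of_natDegree_lt (p := B1 * a)]
        · simp
        · refine lt_of_le_of_lt natDegree_mul_le ?_
          omega
        · refine lt_of_le_of_lt natDegree_mul_le ?_
          omega
      rw [hR0, coeff_zero] at h1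
      exact mul_ne_zero (leadingCoeff_ne_zero.mpr hB10) hA h1.symm
  have h1 : Y ⊆ R.roots.toFinset := by
    intro z hz
    rw [Multiset.mem_toFinset, mem_roots hR0]
    exact hRY z hz
  have h2 := Finset.card_le_card h1
  have h3 := Multiset.toFinset_card_le R.roots
  have h4 := card_roots' R
  omega

section Loc

variable {Q : PlaceData k K} {S : Finset Q.Pl}

/-- Cramer's rule at a place. -/
lemma G_alphaE {s d : ℕ} {v : Q.Pl} (κ : Fin s → ℕ) (φ : Fin s → K → K) (α : Fin s → K)
    (z : Fin s → K) (q Y : ℤ) (hφ : ∀ i j, Q.G v (-(κ j * q)) (φ j (z i)))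
    (hz : ∀ i, Q.G v Y (z i)) (hrel : ∀ i, z i ^ d = ∑ j, α j * φ j (z i)) (l : Fin s) :
    Q.G v (d * Y - ((∑ j, κ j : ℕ) - κ l) * q) (α l * Edet φ z) := by
  set M : Matrix (Fin s) (Fin s) K := Matrix.of fun i j => φ j (z i) with hM
  have h2 := Matrix.det_updateCol_sum M l α
  have h3 : M.updateCol l (fun i => ∑ j, α j • M i j) = M.updateCol l (fun i => z i ^ d) := by
    congr 1
    funext i
    rw [hrel i]
    simp [hM]
  rw [h3, smul_eq_mul] at h2
  have h4 : α l * Edet φ z = (M.updateCol l (fun i => z i ^ d)).det := h2.symm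
  rw [h4]
  have h5 := G_det (Q := Q) (v := v) (M.updateCol l (fun i => z i ^ d)) (fun _ => 0)
    (fun j => -(κ j * q) + (if j = l then d * Y + κ l * q else 0)) ?_
  · refine G_mono h5 (le_of_eq ?_)
    rw [Finset.sum_const_zero, zero_add, Finset.sum_add_distrib, Finset.sum_ite_eq' univ l,
      if_pos (Finset.mem_univ l), Finset.sum_neg_distrib]
    push_cast
    rw [← Finset.sum_mul]
    ring
  · intro i j
    rw [Matrix.updateCol_apply]
    by_cases hj : j = l
    · subst hj
      rw [if_pos rfl, if_pos rfl]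
      refine G_mono (G_pow (hz i) d) (le_of_eq (by ring))
    · rw [if_neg hj, if_neg hj]
      refine G_mono (hφ i j) (le_of_eq (by ring))

end Loc

end Pool.Agent.W277.UE
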