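import Mathlib
import Pool.Agent.W277.UE.R1
import Pool.Agent.W277.UC.Poly

/-!
# Rational maps with a gap: the large case
-/

namespace Pool.Agent.W277.UE

open Finset Polynomial Pool.Agent.W277.UB Pool.Agent.W277.UC PlaceData

variable {k K : Type*} [Field k] [Field K] [Algebra k K]

open Classical in
/-- The points outside `0` and the finite poles. -/
noncomputable def Po (b : K[X]) (P : Finset K) : Finset K :=
  P.filter fun z => z ≠ 0 ∧ b.eval z ≠ 0

open Classical in
/-- The points of `Po` whose image is `0` or in `Po`. -/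
noncomputable def P1 (d : ℕ) (A : K) (a b : K[X]) (P : Finset K) : Finset K :=
  (Po b P).filter fun z => ww d A a b z = 0 ∨ ww d A a b z ∈ Po b P

lemma mem_Po {b : K[X]} {P : Finset K} {z : K} :
    z ∈ Po b P ↔ z ∈ P ∧ z ≠ 0 ∧ b.eval z ≠ 0 := by
  classical
  unfold Po
  rw [Finset.mem_filter]

lemma mem_P1 {d : ℕ} {A : K} {a b : K[X]} {P : Finset K} {z : K} :
    z ∈ P1 d A a b P ↔ z ∈ Po b P ∧ (ww d A a b z = 0 ∨ ww d A a b z ∈ Po b P) := by
  classical
  unfold P1
  rw [Finset.mem_filter]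

/-- Few points outside `P1`. -/
lemma card_le_P1 {e d : ℕ} {A : K} {a b : K[X]} {P : Finset K} (hst : StabR e d A a b P)
    (hed : e < d) : P.card ≤ (P1 d A a b P).card + (1 + e + e * d) := by
  classical
  set p : K → K[X] := fun w => C A * X ^ d + a - C w * b with hp
  have hpd : ∀ w, (p w).natDegree ≤ d := by
    intro w
    rw [hp]
    refine (natDegree_sub_le _ _).trans (max_le ?_ ?_)
    · refine (natDegree_add_le _ _).trans (max_le (natDegree_C_mul_X_pow_le _ _) ?_)
      exact hst.ha.trans hed.le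
    · refine (natDegree_C_mul_le _ _).trans ?_
      exact hst.hb.trans hed.le
  have hp0 : ∀ w, p w ≠ 0 := by
    intro w h
    have h1 : (p w).coeff d = A := by
      simp only [hp, coeff_sub, coeff_add, coeff_C_mul, coeff_X_pow, if_true]
      rw [coeff_eq_zero_of_natDegree_lt (lt_of_le_of_lt hst.ha hed),
        coeff_eq_zero_of_natDegree_lt (lt_of_le_of_lt hst.hb hed)]
      ring
    rw [h, coeff_zero] at h1
    exact hst.hA h1.symm
  have hsub : P ⊆ P1 d A a b P ∪ (({0} ∪ b.roots.toFinset) ∪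
      b.roots.toFinset.biUnion fun w => (p w).roots.toFinset) := by
    intro z hz
    by_cases h0 : z = 0
    · simp [h0]
    by_cases hb : b.eval z = 0
    · have h1 : z ∈ b.roots.toFinset := by
        rw [Multiset.mem_toFinset, mem_roots hst.hb0]
        exact hb
      simp [h1]
    by_cases h1 : z ∈ P1 d A a b P
    · simp [h1]
    · have h2 : z ∈ Po b P := mem_Po.mpr ⟨hz, h0, hb⟩
      rw [mem_P1] at h1
      push Not at h1
      obtain ⟨h3, h4⟩ := h1 h2
      rw [mem_Po] at h4
      push Not at h4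
      have h5 := h4 (hst.hP z hz hb) h3
      have h6 : ww d A a b z ∈ b.roots.toFinset := by
        rw [Multiset.mem_toFinset, mem_roots hst.hb0]
        exact h5
      have h7 : z ∈ (p (ww d A a b z)).roots.toFinset := by
        rw [Multiset.mem_toFinset, mem_roots (hp0 _)]
        simp only [IsRoot.def, hp, eval_sub, eval_add, eval_mul, eval_C, eval_pow, eval_X]
        unfold ww
        field_simp
        ring
      apply Finset.mem_union_right
      apply Finset.mem_union_right
      exact Finset.mem_biUnion.mpr ⟨_, h6, h7⟩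
  have hbr : b.roots.toFinset.card ≤ e :=
    (Multiset.toFinset_card_le _).trans ((card_roots' b).trans hst.hb)
  have h1 : (b.roots.toFinset.biUnion fun w => (p w).roots.toFinset).card ≤ e * d := by
    refine (Finset.card_biUnion_le_card_mul _ _ d ?_).trans (Nat.mul_le_mul_right d hbr)
    intro w _
    exact (Multiset.toFinset_card_le _).trans ((card_roots' _).trans (hpd w))
  have h2 := Finset.card_le_card hsub
  have h3 := Finset.card_union_le (P1 d A a b P) (({0} ∪ b.roots.toFinset) ∪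
      b.roots.toFinset.biUnion fun w => (p w).roots.toFinset)
  have h4 := Finset.card_union_le ({0} ∪ b.roots.toFinset)
    (b.roots.toFinset.biUnion fun w => (p w).roots.toFinset)
  have h5 := Finset.card_union_le ({0} : Finset K) b.roots.toFinset
  rw [Finset.card_singleton] at h5
  omega

section Est

variable {Q : PlaceData k K}

lemma Po_unit {b : K[X]} {P : Finset K} : ∀ z ∈ Po b P, Unit' Q (supp Q P) z := by
  intro z hz
  rw [mem_Po] at hz
  exact unit_supp hz.1 hz.2.1

/-- Bounds for the test functions on `P1`. -/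
lemma psi_P1 {e d : ℕ} {A : K} {a b : K[X]} {P : Finset K} (hPo : (Po b P).Nonempty) :
    ∀ z ∈ P1 d A a b P, ∀ j v, Q.G v (-(kapR e j * qm Q (Po b P) hPo v))
      (psi e d A a b j z) := by
  intro z hz j v
  rw [mem_P1] at hz
  have h1 : Q.G v (- qm Q (Po b P) hPo v) z := fun _ => le_qm hPo v hz.1
  have h2 : Q.G v (- qm Q (Po b P) hPo v) (ww d A a b z) := by
    intro h
    exact le_qm hPo v (hz.2.resolve_left h)
  refine Fin.addCases (fun i => ?_) (fun i => ?_) j
  · simp only [psi, kapR, Fin.addCases_left]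
    exact G_mono (G_pow h1 _) (le_of_eq (by ring))
  · simp only [psi, kapR, Fin.addCases_right]
    exact G_mono (G_mul h2 (G_pow h1 _)) (le_of_eq (by push_cast; ring))

/-- Bounds for the test functions on `Po`. -/
lemma psi_Po [DecidableEq K] {e d : ℕ} {A : K} {a b : K[X]} {P : Finset K}
    (hst : StabR e d A a b P) (hP0 : (P.erase 0).Nonempty) :
    ∀ z ∈ Po b P, ∀ j v, Q.G v (-(kapR e j * qm Q (P.erase 0) hP0 v)) (psi e d A a b j z) := by
  intro z hz j v
  rw [mem_Po] at hz
  have h1 : Q.G v (- qm Q (P.erase 0) hP0 v) z :=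
    fun _ => le_qm hP0 v (Finset.mem_erase.mpr ⟨hz.2.1, hz.1⟩)
  have h2 : Q.G v (- qm Q (P.erase 0) hP0 v) (ww d A a b z) := by
    intro h
    exact le_qm hP0 v (Finset.mem_erase.mpr ⟨h, hst.hP z hz.1 hz.2.2⟩)
  refine Fin.addCases (fun i => ?_) (fun i => ?_) j
  · simp only [psi, kapR, Fin.addCases_left]
    exact G_mono (G_pow h1 _) (le_of_eq (by ring))
  · simp only [psi, kapR, Fin.addCases_right]
    exact G_mono (G_mul h2 (G_pow h1 _)) (le_of_eq (by push_cast; ring))

/-- (II): the size of `P` in terms of the size of `Po`. -/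
lemma size_le [DecidableEq K] {e d : ℕ} {A : K} {a b : K[X]} {P : Finset K}
    (hst : StabR e d A a b P) (hP0 : (P.erase 0).Nonempty) (hPo : (Po b P).Nonempty)
    (z : Fin ((e + 1) + (e + 1)) → K) (hz : ∀ i, z i ∈ P1 d A a b P)
    (hE : Edet (psi e d A a b) z ≠ 0) (y : K) (hy : y ∈ Po b P) :
    Hq Q (supp Q P) (qm Q (P.erase 0) hP0) ≤
      ((e + 1) ^ 2 : ℕ) * Hq Q (supp Q P) (qm Q (Po b P) hPo) +
        d * ∑ i, hS Q (supp Q P) (z i / y) := by
  classical
  set S := supp Q P with hSd
  set q := qm Q (P.erase 0) hP0 with hq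
  set qo := qm Q (Po b P) hPo with hqo
  set E := Edet (psi e d A a b) z with hEd
  have hyU : Unit' Q S y := Po_unit y hy
  have hy0 : y ≠ 0 := hyU.1
  have hzU : ∀ i, Unit' Q S (z i) := fun i => Po_unit _ (mem_P1.mp (hz i)).1
  set m : Q.Pl → ℤ := fun v => ∑ i, Q.pole v (z i / y) with hm
  have hm0 : ∀ v, 0 ≤ m v := fun v => Finset.sum_nonneg fun i _ => pole_nonneg v _
  have hle : ∀ v i, Q.pole v (z i / y) ≤ m v := fun v i =>
    Finset.single_le_sum (f := fun i => Q.pole v (z i / y)) (fun i _ => pole_nonneg v _)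
      (Finset.mem_univ i)
  have hzo : ∀ v i, Q.G v (Q.ord v y - m v) (z i) := by
    intro v i _
    have h1 := hle v i
    have hzi : z i ≠ 0 := (hzU i).1
    rw [pole_of_ne (div_ne_zero hzi hy0), ord_div hzi hy0] at h1
    have := le_max_right 0 (- (Q.ord v (z i) - Q.ord v y))
    linarith
  set x : ℕ → K := fun j => b.coeff j / A * E with hx
  have hxb : ∀ v j, j ≤ e → Q.G v (d * (Q.ord v y - m v) -
      (((e + 1) ^ 2 : ℕ) - (j + 1)) * qo v) (x j) := by
    intro v j hj
    have h1 := G_alphaE (Q := Q) (v := v) (d := d) (kapR e) (psi e d A a b) (alR e A a b) z (qo v)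
      (Q.ord v y - m v) (fun i l => psi_P1 hPo _ (hz i) l v) (hzo v)
      (fun i => psi_rel hst.hA hst.ha hst.hb (mem_Po.mp (mem_P1.mp (hz i)).1).2.2)
      (Fin.natAdd (e + 1) ⟨j, by omega⟩)
    rw [sum_kapR] at h1
    simp only [alR, kapR, Fin.addCases_right] at h1
    refine G_mono h1 (le_of_eq ?_)
    push_cast
    ring
  set J := b.natDegree with hJ
  have hJe : J ≤ e := hst.hb
  have hxJ : x J ≠ 0 := by
    rw [hx]
    refine mul_ne_zero (div_ne_zero ?_ hst.hA) hE
    rw [hJ, coeff_natDegree]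
    exact leadingCoeff_ne_zero.mpr hst.hb0
  have hc : ∀ v, 0 ≤ qo v + Q.ord v y := by
    intro v
    have := le_qm (Q := Q) hPo v hy
    linarith
  have hJ0 : (0 : ℤ) ≤ J := Int.natCast_nonneg J
  set U : Q.Pl → ℤ := fun v => Q.ord v (x J) + (J - d) * Q.ord v y +
    (((e + 1) ^ 2 : ℕ) - 1) * qo v + d * m v with hU
  have hU0 : ∀ v, 0 ≤ U v := by
    intro v
    have h1 := hxb v J hJe hxJ
    have h2 := mul_nonneg hJ0 (hc v)
    simp only [hU]
    linarith
  have key : ∀ v, q v + Q.ord v y ≤ (qo v + Q.ord v y) + U v := by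
    intro v
    obtain ⟨p, hp, hpo⟩ := exists_qm (Q := Q) hP0 v
    have hp0 : p ≠ 0 := Finset.ne_of_mem_erase hp
    have hpP : p ∈ P := Finset.mem_of_mem_erase hp
    by_cases hbp : b.eval p = 0
    · rcases le_or_gt (q v + Q.ord v y) 0 with h0 | h0
      · have := hc v
        have := hU0 v
        linarith
      · have hJ1 : 1 ≤ J := by
          by_contra hcon
          have h1 : b.natDegree = 0 := by omega
          obtain ⟨c, hc'⟩ := natDegree_eq_zero.mp h1
          rw [← hc', eval_C] at hbp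
          rw [hbp, C_0] at hc'
          exact hst.hb0 hc'.symm
        have hsum : x J * p ^ J = - ∑ j ∈ range J, x j * p ^ j := by
          have h1 : b.eval p = ∑ j ∈ range J, b.coeff j * p ^ j + b.coeff J * p ^ J := by
            rw [eval_eq_sum_range, Finset.sum_range_succ]
          rw [hbp] at h1
          have h2 : ∑ j ∈ range J, x j * p ^ j = (∑ j ∈ range J, b.coeff j * p ^ j) / A * E := by
            rw [Finset.sum_div, Finset.sum_mul]
            refine Finset.sum_congr rfl fun j _ => ?_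
            simp only [hx]
            ring
          rw [h2]
          have h3 : ∑ j ∈ range J, b.coeff j * p ^ j = - (b.coeff J * p ^ J) :=
            eq_neg_of_add_eq_zero_left h1.symm
          rw [h3]
          simp only [hx]
          ring
        have hG : Q.G v (d * (Q.ord v y - m v) - (((e + 1) ^ 2 : ℕ) - 1) * qo v -
            (J - 1) * (q v + Q.ord v y)) (x J * p ^ J) := by
          rw [hsum]
          apply G_neg
          apply G_sum
          intro j hj
          have hjJ : j < J := Finset.mem_range.mp hj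
          have h1 := G_mul (hxb v j (by omega)) (G_pow (G_self (Q := Q) (v := v) (x := p)) j)
          refine G_mono h1 ?_
          rw [hpo]
          have h2 : (0 : ℤ) ≤ (J - 1 - j) * (q v + Q.ord v y) := by
            apply mul_nonneg _ h0.le
            have : (j : ℤ) + 1 ≤ J := by exact_mod_cast hjJ
            linarith
          have h3 : (0 : ℤ) ≤ j * (qo v + Q.ord v y) :=
            mul_nonneg (Int.natCast_nonneg j) (hc v)
          nlinarith
        have h1 := hG (mul_ne_zero hxJ (pow_ne_zero _ hp0))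
        rw [Q.ord_mul v _ _ hxJ (pow_ne_zero _ hp0), ord_pow hp0, hpo] at h1
        have h2 := hc v
        simp only [hU]
        nlinarith
    · have h1 := le_qm (Q := Q) hPo v (mem_Po.mpr ⟨hpP, hp0, hbp⟩)
      rw [hpo] at h1
      have := hU0 v
      linarith
  -- sum
  have hxo : ∑ v ∈ S, Q.wt v * Q.ord v (x J) ≤ 0 := by
    apply Q.prod_formula _ hxJ
    intro v hv
    have h1 := hxb v J hJe hxJ
    have h2 : m v = 0 := by
      refine Finset.sum_eq_zero fun i _ => ?_
      rw [pole_of_ne (div_ne_zero (hzU i).1 hy0), ord_div (hzU i).1 hy0,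
        (hzU i).2 v hv, hyU.2 v hv]
      simp
    rw [h2, hyU.2 v hv, hqo, qm_zero hPo Po_unit v hv] at h1
    simpa using h1
  have hsum := Finset.sum_le_sum (s := S) fun v (_ : v ∈ S) =>
    mul_le_mul_of_nonneg_left (key v) (Q.wt_nonneg v)
  have h1 : ∑ v ∈ S, Q.wt v * (q v + Q.ord v y) = Hq Q S q + ∑ v ∈ S, Q.wt v * Q.ord v y := by
    unfold Hq
    rw [← Finset.sum_add_distrib]
    exact Finset.sum_congr rfl fun v _ => by ring
  have h2 : ∑ v ∈ S, Q.wt v * ((qo v + Q.ord v y) + U v) =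
      ((e + 1) ^ 2 : ℕ) * Hq Q S qo + (1 + (J - d)) * ∑ v ∈ S, Q.wt v * Q.ord v y +
        ∑ v ∈ S, Q.wt v * Q.ord v (x J) + d * ∑ i, hS Q S (z i / y) := by
    unfold Hq hS
    rw [Finset.sum_comm]
    simp only [Finset.mul_sum (s := S), ← Finset.sum_add_distrib]
    refine Finset.sum_congr rfl fun v _ => ?_
    simp only [hU, hm, ← Finset.mul_sum]
    ring
  rw [h1, h2, sum_unit hyU] at hsum
  linarith

/-- The large case for rational maps. -/
theorem rat_large [DecidableEq K] {e d n : ℕ} {A : K} {a b : K[X]} {P : Finset K}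
    (hst : StabR e d A a b P) (hed : 2 * e + 1 < d) (hP0 : (P.erase 0).Nonempty)
    (hPo : (Po b P).Nonempty)
    (hnum : (d : ℤ) * (1 + ((e + 1) ^ 2 : ℕ)) * (((e + 1) + (e + 1) : ℕ) *
        (((e + 1) + (e + 1) : ℕ) * (((e + 1) ^ 2 : ℕ) + (((e + 1) + (e + 1) : ℕ) - 1)) +
          2 * n * tri ((e + 1) + (e + 1)))) <
      (d - ((e + 1) ^ 2 : ℕ) * ((e + 1) ^ 2 : ℕ)) * (d - (((e + 1) + (e + 1) : ℕ) - 1)))
    (hH : 0 < Hq Q (supp Q P) (qm Q (Po b P) hPo))
    (hΛ : Q.lossT ≤ 2 * n * Hq Q (supp Q P) (qm Q (Po b P) hPo)) :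
    (P1 d A a b P).card ≤ (d + e) * (d + e) := by
  set S := supp Q P with hSd
  set q := qm Q (P.erase 0) hP0 with hq
  set qo := qm Q (Po b P) hPo with hqo
  set s : ℕ := (e + 1) + (e + 1) with hs
  have hP1o : ∀ z ∈ P1 d A a b P, z ∈ Po b P := fun z hz => (mem_P1.mp hz).1
  have hq0 : ∀ v, v ∉ S → q v = 0 := by
    intro v hv
    exact qm_zero hP0 (fun z hz => unit_supp (Finset.mem_of_mem_erase hz)
      (Finset.ne_of_mem_erase hz)) v hv
  have hqo0 : ∀ v, v ∉ S → qo v = 0 := fun v hv => qm_zero hPo Po_unit v hv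
  rcases few_or_cluster (Q := Q) (S := S) (d := d) (N := d + e) (kapR e) (psi e d A a b)
    (alR e A a b) (lossS_subset _) (by omega) (by omega) qo (P1 d A a b P)
    (fun z hz => Po_unit z (hP1o z hz)) (fun z hz v => le_qm hPo v (hP1o z hz))
    (psi_P1 hPo) hqo0 (by
      intro v
      obtain ⟨p, hp, hpo⟩ := exists_qm hPo v
      exact ⟨p, (Po_unit (Q := Q) p hp).1, hpo⟩) hH.le
    (fun z hz => psi_rel hst.hA hst.ha hst.hb (mem_Po.mp (hP1o z hz)).2.2)
    (fun Y hYZ hY => psi_N hst.hA hst.ha hst.hb hst.hb0 (by omega) Y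
      (fun z hz => (mem_Po.mp (hP1o z (hYZ hz))).2.2) hY) with h | ⟨y, hy, z, hz, hE, hcl⟩
  · exact h
  exfalso
  have h3 := cluster_ineq (Q := Q) (S := S) (d := d) (kapR e) (psi e d A a b)
    (alR e A a b) q qo (Po b P : Set K) (fun z hz => Po_unit z hz) (psi_Po hst hP0) hq0 (by
      intro v
      obtain ⟨p, hp, hpo⟩ := exists_qm hPo v
      exact ⟨p, hp, hpo⟩) (fun z hz => psi_rel hst.hA hst.ha hst.hb (mem_Po.mp hz).2.2) z
    (fun i => hP1o _ (hz i)) hE y (hP1o y hy)
  have h2 := size_le (Q := Q) hst hP0 hPo z hz hE y (hP1o y hy)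
  rw [← hSd, ← hq, ← hqo] at h2
  rw [sum_kapR] at h3 hcl
  set κ : ℤ := (((e + 1) ^ 2 : ℕ) : ℤ) with hκ
  set H := Hq Q S q with hHd
  set Ho := Hq Q S qo with hHod
  set M := ∑ i, hS Q S (z i / y) with hMd
  have hM0 : 0 ≤ M := Finset.sum_nonneg fun i _ => hS_nonneg S _
  have hκ0 : 0 ≤ κ := Int.natCast_nonneg _
  have hd0 : (0 : ℤ) ≤ d := Int.natCast_nonneg _
  have hs0 : (0 : ℤ) ≤ s := Int.natCast_nonneg _
  have htri := tri_nonneg s
  have hsd : (0 : ℤ) < d - ((s : ℤ) - 1) := by
    have : ((s : ℕ) : ℤ) = 2 * e + 2 := by rw [hs]; push_cast; ring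
    rw [this]
    have : (2 * e + 1 : ℤ) < d := by exact_mod_cast hed
    linarith
  -- closeness
  have h4 : ((d : ℤ) - (s - 1)) * M ≤ s * (s * (κ + (s - 1)) * Ho + tri s * Q.lossT) := by
    rw [hMd, Finset.mul_sum]
    refine le_trans (Finset.sum_le_sum fun i _ => hcl i) ?_
    rw [Finset.sum_const, Finset.card_univ, Fintype.card_fin, nsmul_eq_mul]
  have h5 : (s : ℤ) * (s * (κ + (s - 1)) * Ho + tri s * Q.lossT) ≤
      (s * (s * (κ + (s - 1)) + 2 * n * tri s)) * Ho := by
    have h6 := mul_le_mul_of_nonneg_left hΛ htri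
    have h7 := mul_le_mul_of_nonneg_left h6 hs0
    linarith
  -- combination of (II) and (III)
  have h6 : ((d : ℤ) - κ * κ) * Ho ≤ d * (1 + κ) * M := by
    have h7 := mul_le_mul_of_nonneg_left h2 hκ0
    linarith
  have h7 := mul_le_mul_of_nonneg_left h6 hsd.le
  have h8 : ((d : ℤ) * (1 + κ)) * ((d - (s - 1)) * M) ≤
      (d * (1 + κ)) * ((s * (s * (κ + (s - 1)) + 2 * n * tri s)) * Ho) := by
    apply mul_le_mul_of_nonneg_left (h4.trans h5)
    positivity
  have h9 := mul_lt_mul_of_pos_right hnum hH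
  linarith

end Est

end Pool.Agent.W277.UE
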