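import Mathlib
import Pool.Agent.W277.UE.R2
import Pool.Agent.W277.UD.StrongFin

/-!
# Rational maps with a gap over extensions of bounded degree
-/

namespace Pool.Agent.W277.UE

open Finset Polynomial Pool.Agent.W277.UB Pool.Agent.W277.UC Pool.Agent.W277.UD PlaceData

/-- Solutions of linear systems over a subfield. -/
lemma lin_sub {k0 K : Type*} [Field k0] [Field K] [Algebra k0 K] {s : ℕ}
    (M : Matrix (Fin s) (Fin s) k0) (r : Fin s → k0) (α : Fin s → K)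
    (hM : (M.map (algebraMap k0 K)).det ≠ 0)
    (h : ∀ i, algebraMap k0 K (r i) = ∑ j, α j * algebraMap k0 K (M i j)) :
    ∀ j, ∃ c : k0, algebraMap k0 K c = α j := by
  have hM0 : M.det ≠ 0 := by
    intro h0
    apply hM
    have h1 := RingHom.map_det (algebraMap k0 K) M
    rw [h0, map_zero] at h1
    exact h1.symm
  set α0 := M⁻¹.mulVec r with hα0
  have h1 : M.mulVec α0 = r := by
    rw [hα0, Matrix.mulVec_mulVec, Matrix.mul_nonsing_inv _ (isUnit_iff_ne_zero.mpr hM0),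
      Matrix.one_mulVec]
  have h2 : (M.map (algebraMap k0 K)).mulVec (fun j => α j - algebraMap k0 K (α0 j)) = 0 := by
    funext i
    have h3 := congrFun h1 i
    simp only [Matrix.mulVec, dotProduct] at h3 ⊢
    simp only [Matrix.map_apply, mul_sub, Finset.sum_sub_distrib, Pi.zero_apply]
    have h4 := h i
    rw [← h3, map_sum] at h4
    simp only [map_mul] at h4
    rw [h4, sub_eq_zero]
    exact Finset.sum_congr rfl fun j _ => mul_comm _ _
  have h3 := Matrix.eq_zero_of_mulVec_eq_zero hM h2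
  intro j
  refine ⟨α0 j, ?_⟩
  have h4 := congrFun h3 j
  simp only [Pi.zero_apply] at h4
  exact (sub_eq_zero.mp h4).symm

/-- The coefficients lie in a subfield if enough points and values do. -/
lemma coef_sub {k0 K : Type*} [Field k0] [Field K] [Algebra k0 K] {e d : ℕ} {A : K} {a b : K[X]}
    (hA : A ≠ 0) (ha : a.natDegree ≤ e) (hb : b.natDegree ≤ e)
    (z : Fin ((e + 1) + (e + 1)) → K) (hz : ∀ i, ∃ c : k0, algebraMap k0 K c = z i)
    (hw : ∀ i, ∃ c : k0, algebraMap k0 K c = ww d A a b (z i)) (hbz : ∀ i, b.eval (z i) ≠ 0)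
    (hE : Edet (psi e d A a b) z ≠ 0) : ∀ j, ∃ c : k0, algebraMap k0 K c = alR e A a b j := by
  choose x hx using hz
  choose w hw using hw
  set M : Matrix (Fin ((e + 1) + (e + 1))) (Fin ((e + 1) + (e + 1))) k0 := Matrix.of fun i j =>
    Fin.addCases (fun l : Fin (e + 1) => x i ^ (l : ℕ)) (fun l : Fin (e + 1) => w i * x i ^ (l : ℕ)) j
    with hM
  have hMe : ∀ i j, algebraMap k0 K (M i j) = psi e d A a b j (z i) := by
    intro i j
    refine Fin.addCases (fun l => ?_) (fun l => ?_) j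
    · simp only [hM, Matrix.of_apply, psi, Fin.addCases_left, map_pow, hx]
    · simp only [hM, Matrix.of_apply, psi, Fin.addCases_right, map_mul, map_pow, hx, hw]
  apply lin_sub M (fun i => x i ^ d) (alR e A a b)
  · unfold Edet at hE
    have h1 : M.map (algebraMap k0 K) = Matrix.of fun i j => psi e d A a b j (z i) := by
      ext i j
      rw [Matrix.map_apply, hMe]
      rfl
    rw [h1]
    exact hE
  · intro i
    rw [map_pow, hx, psi_rel hA ha hb (hbz i)]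
    exact Finset.sum_congr rfl fun j _ => by rw [hMe]

/-- Polynomials whose coefficients lie in a subfield. -/
lemma poly_sub {k0 K : Type*} [Field k0] [Field K] [Algebra k0 K] (a : K[X])
    (h : ∀ j, ∃ c : k0, algebraMap k0 K c = a.coeff j) :
    ∃ a0 : k0[X], a0.map (algebraMap k0 K) = a := by
  have h1 : a ∈ lifts (algebraMap k0 K) := by
    rw [lifts_iff_coeff_lifts]
    intro n
    obtain ⟨c, hc⟩ := h n
    exact ⟨c, hc⟩
  obtain ⟨q, hq⟩ := h1
  exact ⟨q, hq⟩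

lemma poly_sub_R {k0 K : Type*} [Field k0] [Field K] [Algebra k0 K] {e : ℕ} {a b : K[X]}
    (ha : a.natDegree ≤ e) (hb : b.natDegree ≤ e)
    (h : ∀ j, ∃ c : k0, algebraMap k0 K c = alR e 1 a b j) :
    (∃ a0 : k0[X], a0.map (algebraMap k0 K) = a) ∧
      ∃ b0 : k0[X], b0.map (algebraMap k0 K) = b := by
  constructor
  · apply poly_sub
    intro j
    rcases Nat.lt_or_ge j (e + 1) with hj | hj
    · obtain ⟨c, hc⟩ := h (Fin.castAdd (e + 1) ⟨j, hj⟩)
      simp only [alR, Fin.addCases_left, div_one] at hc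
      exact ⟨-c, by rw [map_neg, hc, neg_neg]⟩
    · exact ⟨0, by rw [map_zero, coeff_eq_zero_of_natDegree_lt (by omega)]⟩
  · apply poly_sub
    intro j
    rcases Nat.lt_or_ge j (e + 1) with hj | hj
    · obtain ⟨c, hc⟩ := h (Fin.natAdd (e + 1) ⟨j, hj⟩)
      simp only [alR, Fin.addCases_right, div_one] at hc
      exact ⟨c, hc⟩
    · exact ⟨0, by rw [map_zero, coeff_eq_zero_of_natDegree_lt (by omega)]⟩

section Scale

variable {L : Type*} [Field L]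

/-- The numerator after scaling. -/
noncomputable def sa (d : ℕ) (A z0 : L) (a : L[X]) : L[X] :=
  C (A * z0 ^ d)⁻¹ * a.comp (C z0 * X)

/-- The denominator after scaling. -/
noncomputable def sb (d : ℕ) (A z0 : L) (b : L[X]) : L[X] :=
  C (z0 * (A * z0 ^ d)⁻¹) * b.comp (C z0 * X)

lemma sa_eval (d : ℕ) (A z0 : L) (a : L[X]) (x : L) :
    (sa d A z0 a).eval x = (A * z0 ^ d)⁻¹ * a.eval (z0 * x) := by
  simp [sa, eval_comp]

lemma sb_eval (d : ℕ) (A z0 : L) (b : L[X]) (x : L) :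
    (sb d A z0 b).eval x = z0 * (A * z0 ^ d)⁻¹ * b.eval (z0 * x) := by
  simp [sb, eval_comp]

lemma ww_scal {d : ℕ} {A z0 : L} (hA : A ≠ 0) (hz0 : z0 ≠ 0) (a b : L[X]) (x : L)
    (hb : b.eval (z0 * x) ≠ 0) :
    ww d 1 (sa d A z0 a) (sb d A z0 b) x = ww d A a b (z0 * x) / z0 := by
  unfold ww
  rw [sa_eval, sb_eval]
  have h1 : A * z0 ^ d ≠ 0 := mul_ne_zero hA (pow_ne_zero _ hz0)
  field_simp
  rw [mul_pow]
  ring

lemma sa_sa {d : ℕ} {A z0 y : L} (a : L[X]) :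
    sa d 1 y (sa d A z0 a) = sa d A (z0 * y) a := by
  unfold sa
  rw [mul_comp, C_comp, comp_assoc, ← mul_assoc, ← C_mul]
  congr 2
  · rw [mul_pow, one_mul]
    rw [← mul_inv]
    ring
  · simp only [mul_comp, C_comp, X_comp, C_mul]
    ring

lemma sb_sb {d : ℕ} {A z0 y : L} (b : L[X]) :
    sb d 1 y (sb d A z0 b) = sb d A (z0 * y) b := by
  unfold sb
  rw [mul_comp, C_comp, comp_assoc, ← mul_assoc, ← C_mul]
  congr 2
  · rw [mul_pow, one_mul]
    have h1 : (A * (z0 ^ d * y ^ d))⁻¹ = (y ^ d)⁻¹ * (A * z0 ^ d)⁻¹ := by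
      rw [← mul_inv]
      ring
    rw [h1]
    ring
  · simp only [mul_comp, C_comp, X_comp, C_mul]
    ring

lemma sa_one {d : ℕ} (a : L[X]) : sa d 1 1 a = a := by simp [sa]

lemma sb_one {d : ℕ} (a : L[X]) : sb d 1 1 a = a := by simp [sb]

lemma natDegree_sa_le {e d : ℕ} {A z0 : L} {a : L[X]} (ha : a.natDegree ≤ e) :
    (sa d A z0 a).natDegree ≤ e := by
  unfold sa
  refine (natDegree_C_mul_le _ _).trans ?_
  refine natDegree_comp_le.trans ?_
  have h1 : (C z0 * X : L[X]).natDegree ≤ 1 := (natDegree_C_mul_le _ _).trans natDegree_X_le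
  calc a.natDegree * (C z0 * X : L[X]).natDegree ≤ e * 1 := Nat.mul_le_mul ha h1
    _ = e := mul_one e

lemma natDegree_sb_le {e d : ℕ} {A z0 : L} {b : L[X]} (hb : b.natDegree ≤ e) :
    (sb d A z0 b).natDegree ≤ e := by
  unfold sb
  refine (natDegree_C_mul_le _ _).trans ?_
  refine natDegree_comp_le.trans ?_
  have h1 : (C z0 * X : L[X]).natDegree ≤ 1 := (natDegree_C_mul_le _ _).trans natDegree_X_le
  calc b.natDegree * (C z0 * X : L[X]).natDegree ≤ e * 1 := Nat.mul_le_mul hb h1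
    _ = e := mul_one e

lemma sb_ne_zero {d : ℕ} {A z0 : L} (hA : A ≠ 0) (hz0 : z0 ≠ 0) {b : L[X]} (hb : b ≠ 0) :
    sb d A z0 b ≠ 0 := by
  unfold sb
  refine mul_ne_zero ?_ ?_
  · rw [Ne, C_eq_zero]
    exact mul_ne_zero hz0 (inv_ne_zero (mul_ne_zero hA (pow_ne_zero _ hz0)))
  · rw [Ne, comp_eq_zero_iff]
    rintro (h | ⟨-, h⟩)
    · exact hb h
    · have h2 : (C z0 * X : L[X]).natDegree = 1 := natDegree_C_mul_X z0 hz0
      rw [h, natDegree_C] at h2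
      exact zero_ne_one h2

lemma sb_eval_ne {d : ℕ} {A z0 : L} (hA : A ≠ 0) (hz0 : z0 ≠ 0) (b : L[X]) (x : L) :
    (sb d A z0 b).eval x ≠ 0 ↔ b.eval (z0 * x) ≠ 0 := by
  rw [sb_eval]
  have h1 : A * z0 ^ d ≠ 0 := mul_ne_zero hA (pow_ne_zero _ hz0)
  constructor
  · exact fun h => right_ne_zero_of_mul h
  · exact fun h => mul_ne_zero (mul_ne_zero hz0 (inv_ne_zero h1)) h

lemma stabR_scal [DecidableEq L] {e d : ℕ} {A : L} {a b : L[X]} {P : Finset L}
    (hst : StabR e d A a b P) {z0 : L} (hz0 : z0 ≠ 0) :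
    StabR e d 1 (sa d A z0 a) (sb d A z0 b) (P.image fun z => z / z0) := by
  refine ⟨one_ne_zero, natDegree_sa_le hst.ha, natDegree_sb_le hst.hb,
    sb_ne_zero hst.hA hz0 hst.hb0, ?_⟩
  intro x hx hbx
  obtain ⟨z, hz, rfl⟩ := Finset.mem_image.mp hx
  rw [sb_eval_ne hst.hA hz0, mul_div_cancel₀ z hz0] at hbx
  rw [ww_scal hst.hA hz0 a b _ (by rwa [mul_div_cancel₀ z hz0]), mul_div_cancel₀ z hz0]
  exact Finset.mem_image.mpr ⟨_, hst.hP z hz hbx, rfl⟩

lemma mem_image_div [DecidableEq L] {P : Finset L} {z0 : L} (hz0 : z0 ≠ 0) (x : L) :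
    x ∈ (P.image fun z => z / z0) ↔ z0 * x ∈ P := by
  rw [Finset.mem_image]
  constructor
  · rintro ⟨z, hz, rfl⟩
    rwa [mul_div_cancel₀ z hz0]
  · intro h
    exact ⟨_, h, by field_simp⟩

lemma mem_Po_scal [DecidableEq L] {d : ℕ} {A : L} {b : L[X]} {P : Finset L} (hA : A ≠ 0)
    {z0 : L} (hz0 : z0 ≠ 0) (x : L) :
    x ∈ Po (sb d A z0 b) (P.image fun z => z / z0) ↔ z0 * x ∈ Po b P := by
  rw [mem_Po, mem_Po, mem_image_div hz0, sb_eval_ne hA hz0]
  constructor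
  · rintro ⟨h1, h2, h3⟩
    exact ⟨h1, mul_ne_zero hz0 h2, h3⟩
  · rintro ⟨h1, h2, h3⟩
    exact ⟨h1, right_ne_zero_of_mul h2, h3⟩

lemma mem_P1_scal [DecidableEq L] {d : ℕ} {A : L} {a b : L[X]} {P : Finset L} (hA : A ≠ 0)
    {z0 : L} (hz0 : z0 ≠ 0) (x : L) :
    x ∈ P1 d 1 (sa d A z0 a) (sb d A z0 b) (P.image fun z => z / z0) ↔
      z0 * x ∈ P1 d A a b P := by
  rw [mem_P1, mem_P1, mem_Po_scal hA hz0]
  constructor
  · rintro ⟨h1, h2⟩
    have hb := (mem_Po.mp h1).2.2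
    rw [ww_scal hA hz0 a b x hb, mem_Po_scal hA hz0, mul_div_cancel₀ _ hz0, div_eq_zero_iff,
      or_iff_left hz0] at h2
    exact ⟨h1, h2⟩
  · rintro ⟨h1, h2⟩
    have hb := (mem_Po.mp h1).2.2
    rw [ww_scal hA hz0 a b x hb, mem_Po_scal hA hz0, mul_div_cancel₀ _ hz0, div_eq_zero_iff,
      or_iff_left hz0]
    exact ⟨h1, h2⟩

lemma card_P1_scal [DecidableEq L] {d : ℕ} {A : L} {a b : L[X]} {P : Finset L} (hA : A ≠ 0)
    {z0 : L} (hz0 : z0 ≠ 0) :
    (P1 d 1 (sa d A z0 a) (sb d A z0 b) (P.image fun z => z / z0)).card =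
      (P1 d A a b P).card := by
  symm
  refine Finset.card_bij (fun z _ => z / z0) ?_ ?_ ?_
  · intro z hz
    rw [mem_P1_scal hA hz0, mul_div_cancel₀ z hz0]
    exact hz
  · intro x _ y _ h
    rwa [div_left_inj' hz0] at h
  · intro x hx
    rw [mem_P1_scal hA hz0] at hx
    exact ⟨_, hx, by field_simp⟩

end Scale

lemma numericR (n e d : ℕ) (hn : 1 ≤ n) (h : 26 * n * (e + 1) ^ 6 ≤ d) :
    2 * e + 1 < d ∧
    (d : ℤ) * (1 + ((e + 1) ^ 2 : ℕ)) * (((e + 1) + (e + 1) : ℕ) *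
        (((e + 1) + (e + 1) : ℕ) * (((e + 1) ^ 2 : ℕ) + (((e + 1) + (e + 1) : ℕ) - 1)) +
          2 * n * tri ((e + 1) + (e + 1)))) <
      (d - ((e + 1) ^ 2 : ℕ) * ((e + 1) ^ 2 : ℕ)) * (d - (((e + 1) + (e + 1) : ℕ) - 1)) := by
  have h' : 26 * (n : ℤ) * ((e : ℤ) + 1) ^ 6 ≤ d := by exact_mod_cast h
  have he : (0 : ℤ) ≤ e := Int.natCast_nonneg e
  have hn' : (1 : ℤ) ≤ n := by exact_mod_cast hn
  have t2 := two_tri ((e + 1) + (e + 1))
  push_cast at t2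
  have hE : (1 : ℤ) ≤ (e : ℤ) + 1 := by linarith
  have hE6 : ((e : ℤ) + 1) ≤ ((e : ℤ) + 1) ^ 6 := by
    calc ((e : ℤ) + 1) = ((e : ℤ) + 1) ^ 1 := (pow_one _).symm
      _ ≤ ((e : ℤ) + 1) ^ 6 := pow_le_pow_right₀ hE (by norm_num)
  constructor
  · zify
    have h1 : ((e : ℤ) + 1) ^ 6 ≤ n * ((e : ℤ) + 1) ^ 6 := by
      have := mul_le_mul_of_nonneg_right hn' (show (0 : ℤ) ≤ ((e : ℤ) + 1) ^ 6 by positivity)
      linarith
    linarith
  · obtain ⟨D, hD⟩ : ∃ D : ℤ, D = d - 26 * n * (e + 1) ^ 6 := ⟨_, rfl⟩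
    obtain ⟨m, hm⟩ : ∃ m : ℤ, m = n - 1 := ⟨_, rfl⟩
    have hD0 : 0 ≤ D := by linarith
    have hm0 : 0 ≤ m := by linarith
    have hnm : (n : ℤ) = m + 1 := by linarith
    have hd : (d : ℤ) = D + 26 * (m + 1) * (e + 1) ^ 6 := by rw [hD, hnm]; ring
    push_cast
    have h2 : 2 * (n : ℤ) * tri ((e + 1) + (e + 1)) =
        n * ((((e : ℤ) + 1) + (e + 1)) * (((e : ℤ) + 1) + (e + 1) - 1)) := by
      linear_combination (n : ℤ) * t2
    rw [h2, hd, hnm, ← sub_pos]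
    have h3 : (D + 26 * (m + 1) * ((e : ℤ) + 1) ^ 6 - ((e : ℤ) + 1) ^ 2 * ((e : ℤ) + 1) ^ 2) *
        (D + 26 * (m + 1) * ((e : ℤ) + 1) ^ 6 - (((e : ℤ) + 1) + ((e : ℤ) + 1) - 1)) -
        (D + 26 * (m + 1) * ((e : ℤ) + 1) ^ 6) * (1 + ((e : ℤ) + 1) ^ 2) *
          ((((e : ℤ) + 1) + ((e : ℤ) + 1)) * ((((e : ℤ) + 1) + ((e : ℤ) + 1)) *
            (((e : ℤ) + 1) ^ 2 + (((e : ℤ) + 1) + ((e : ℤ) + 1) - 1)) +
              (m + 1) * ((((e : ℤ) + 1) + (e + 1)) * (((e : ℤ) + 1) + (e + 1) - 1)))) =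
        D ^ 2 + D * m * (52 * e ^ 6 + 304 * e ^ 5 + 744 * e ^ 4 + 968 * e ^ 3 + 704 * e ^ 2 +
            272 * e + 44) +
          D * (48 * e ^ 6 + 272 * e ^ 5 + 643 * e ^ 4 + 796 * e ^ 3 + 538 * e ^ 2 + 186 * e + 26) +
          m ^ 2 * (676 * e ^ 12 + 7904 * e ^ 11 + 42432 * e ^ 10 + 138112 * e ^ 9 +
            303212 * e ^ 8 + 472576 * e ^ 7 + 535808 * e ^ 6 + 445120 * e ^ 5 + 268892 * e ^ 4 +
            115232 * e ^ 3 + 33280 * e ^ 2 + 5824 * e + 468) +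
          m * (1248 * e ^ 12 + 14352 * e ^ 11 + 75686 * e ^ 10 + 241436 * e ^ 9 +
            517686 * e ^ 8 + 784316 * e ^ 7 + 859066 * e ^ 6 + 683904 * e ^ 5 + 391846 * e ^ 4 +
            157196 * e ^ 3 + 41808 * e ^ 2 + 6604 * e + 468) +
          (572 * e ^ 12 + 6448 * e ^ 11 + 33254 * e ^ 10 + 103324 * e ^ 9 + 214474 * e ^ 8 +
            311740 * e ^ 7 + 323258 * e ^ 6 + 238786 * e ^ 5 + 122963 * e ^ 4 + 41980 * e ^ 3 +
            8542 * e ^ 2 + 786 * e + 1) := by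
      ring
    rw [h3]
    positivity

end Pool.Agent.W277.UE
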