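import Mathlib
import Pool.Agent.W277.UE.R3

/-!
# Rational maps with a gap: the core theorem
-/

namespace Pool.Agent.W277.UE

open Finset Polynomial Pool.Agent.W277.UB Pool.Agent.W277.UC Pool.Agent.W277.UD PlaceData

section Core

variable {k L : Type*} [Field k] [CharZero k] [Field L] [Algebra k L]
  [Algebra (RatFunc k) L] [IsScalarTower k (RatFunc k) L] [FiniteDimensional (RatFunc k) L]

/-- The bound for normalised stable sets. -/
theorem rat_core_norm (halg : ∀ x : L, IsAlgebraic k x → ∃ c : k, algebraMap k L c = x)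
    {n e d : ℕ} (hn : Module.finrank (RatFunc k) L ≤ n) (hed : 26 * n * (e + 1) ^ 6 ≤ d)
    {a b : L[X]} {P : Finset L} (hst : StabR e d 1 a b P) (h1P : (1 : L) ∈ Po b P)
    (hiso : ¬ ∃ y : L, y ≠ 0 ∧ (∃ a0 : k[X], a0.map (algebraMap k L) = sa d 1 y a) ∧
      ∃ b0 : k[X], b0.map (algebraMap k L) = sb d 1 y b) :
    (P1 d 1 a b P).card ≤ (d + e) * (d + e) := by
  classical
  have : CharZero (RatFunc k) := charZero_of_injective_algebraMap
    (algebraMap k (RatFunc k)).injective
  have hn1 : 1 ≤ n := le_trans Module.finrank_pos hn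
  obtain ⟨n1, n2⟩ := numericR n e d hn1 hed
  by_contra hcon
  push Not at hcon
  have hdc : d + e < (P1 d 1 a b P).card := by
    have : d + e ≤ (d + e) * (d + e) := Nat.le_mul_of_pos_left _ (by omega)
    omega
  have hP1o : ∀ z ∈ P1 d 1 a b P, z ∈ Po b P := fun z hz => (mem_P1.mp hz).1
  obtain ⟨z, -, hz, hE⟩ := psi_N (d := d) (A := (1 : L)) one_ne_zero hst.ha hst.hb hst.hb0
    (by omega) (P1 d 1 a b P) (fun z hz => (mem_Po.mp (hP1o z hz)).2.2) hdc
  have hbz : ∀ i, b.eval (z i) ≠ 0 := fun i => (mem_Po.mp (hP1o _ (hz i))).2.2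
  set L0 := IntermediateField.adjoin (RatFunc k) (Po b P : Set L) with hL0
  have hPoL : ∀ z ∈ Po b P, z ∈ L0 := fun z hz => IntermediateField.subset_adjoin _ _ hz
  obtain ⟨⟨a1, ha1⟩, ⟨b1, hb1⟩⟩ := poly_sub_R (k0 := L0) hst.ha hst.hb
    (coef_sub (k0 := L0) (d := d) one_ne_zero hst.ha hst.hb z
      (fun i => ⟨⟨z i, hPoL _ (hP1o _ (hz i))⟩, rfl⟩)
      (fun i => by
        rcases (mem_P1.mp (hz i)).2 with h | h
        · exact ⟨0, by rw [h, map_zero]⟩
        · exact ⟨⟨_, hPoL _ h⟩, rfl⟩) hbz hE)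
  set P' : Finset L0 := P.subtype (fun x => x ∈ L0) with hP'
  have hmem1 : ∀ z : L0, z ∈ P' ↔ (z : L) ∈ P := fun z => Finset.mem_subtype
  have hb1e : ∀ x : L0, ((b1.eval x : L0) : L) = b.eval (x : L) := by
    intro x
    rw [← hb1]
    exact (eval_map_apply (algebraMap L0 L) x).symm
  have ha1e : ∀ x : L0, ((a1.eval x : L0) : L) = a.eval (x : L) := by
    intro x
    rw [← ha1]
    exact (eval_map_apply (algebraMap L0 L) x).symm
  have hb1z : ∀ x : L0, b1.eval x ≠ 0 ↔ b.eval (x : L) ≠ 0 := by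
    intro x
    rw [← hb1e]
    constructor
    · intro h h'
      exact h (Subtype.ext h')
    · intro h h'
      rw [h'] at h
      exact h rfl
  have hww : ∀ x : L0, ((ww d 1 a1 b1 x : L0) : L) = ww d 1 a b (x : L) := by
    intro x
    unfold ww
    rw [← hb1e, ← ha1e]
    push_cast
    rfl
  have hst1 : StabR e d 1 a1 b1 P' := by
    refine ⟨one_ne_zero, ?_, ?_, ?_, ?_⟩
    · rw [← natDegree_map (algebraMap L0 L), ha1]
      exact hst.ha
    · rw [← natDegree_map (algebraMap L0 L), hb1]
      exact hst.hb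
    · intro h
      rw [h, Polynomial.map_zero] at hb1
      exact hst.hb0 hb1.symm
    · intro x hx hbx
      rw [hmem1] at hx ⊢
      rw [hww]
      exact hst.hP _ hx ((hb1z x).mp hbx)
  have hPo1 : ∀ x : L0, x ∈ Po b1 P' ↔ (x : L) ∈ Po b P := by
    intro x
    rw [mem_Po, mem_Po, hmem1, hb1z]
    have h0 : x ≠ 0 ↔ (x : L) ≠ 0 := by
      constructor
      · intro h h'
        exact h (Subtype.ext h')
      · intro h h'
        rw [h'] at h
        exact h rfl
    rw [h0]
  have hP11 : ∀ x : L0, x ∈ P1 d 1 a1 b1 P' ↔ (x : L) ∈ P1 d 1 a b P := by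
    intro x
    rw [mem_P1, mem_P1, hPo1, hPo1, hww]
    have h0 : ww d 1 a1 b1 x = 0 ↔ ww d 1 a b (x : L) = 0 := by
      rw [← hww]
      constructor
      · intro h
        rw [h]
        rfl
      · intro h
        exact Subtype.ext h
    rw [h0]
  have hcard1 : (P1 d 1 a b P).card = (P1 d 1 a1 b1 P').card := by
    symm
    refine Finset.card_bij (fun x _ => (x : L)) ?_ ?_ ?_
    · intro x hx
      exact (hP11 x).mp hx
    · intro x _ y _ h
      exact Subtype.ext h
    · intro x hx
      exact ⟨⟨x, hPoL x (hP1o x hx)⟩, (hP11 _).mpr hx, rfl⟩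
  by_cases hcst : ∀ z ∈ Po b P, ∃ c : k, algebraMap k L c = z
  · obtain ⟨h2, h3⟩ := poly_sub_R (k0 := k) hst.ha hst.hb
      (coef_sub (k0 := k) (d := d) one_ne_zero hst.ha hst.hb z
        (fun i => hcst _ (hP1o _ (hz i)))
        (fun i => by
          rcases (mem_P1.mp (hz i)).2 with h | h
          · exact ⟨0, by rw [h, map_zero]⟩
          · exact hcst _ h) hbz hE)
    exact hiso ⟨1, one_ne_zero, by rwa [sa_one], by rwa [sb_one]⟩
  · push Not at hcst
    obtain ⟨w, hw, hwc⟩ := hcst
    have hst0 : IsScalarTower k L0 L := IsScalarTower.of_algebraMap_eq fun c => rfl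
    have halg0 : ∀ x : L0, IsAlgebraic k x → ∃ c : k, algebraMap k L0 c = x := by
      intro x hx
      obtain ⟨c, hc⟩ := halg (x : L) (hx.algebraMap (A := L))
      exact ⟨c, Subtype.ext hc⟩
    have hgenP : IntermediateField.adjoin (RatFunc k) (Po b1 P' : Set L0) = ⊤ := by
      apply IntermediateField.lift_injective
      rw [IntermediateField.lift_adjoin, IntermediateField.lift_top]
      have h2 : (Subtype.val : L0 → L) '' (Po b1 P' : Set L0) = (Po b P : Set L) := by
        ext x
        constructor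
        · rintro ⟨y, hy, rfl⟩
          exact (hPo1 y).mp hy
        · intro hx
          exact ⟨⟨x, hPoL x hx⟩, (hPo1 _).mpr hx, rfl⟩
      rw [h2]
    obtain ⟨u, huP, hugen, huc⟩ := exists_gen (k := k) (F := RatFunc k) (E := L0)
      (Po b1 P' : Set L0) hgenP ⟨w, hPoL w hw⟩ ((hPo1 _).mpr hw) (by
        intro c hc
        exact hwc c (congrArg Subtype.val hc).symm)
    obtain ⟨Q, hQ⟩ := exists_placeData_small k L0 halg0 u hugen huc
    have h1Po : (1 : L0) ∈ Po b1 P' := by
      rw [hPo1]
      exact h1P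
    have hPo : (Po b1 P').Nonempty := ⟨1, h1Po⟩
    have hP0 : (P'.erase 0).Nonempty :=
      ⟨1, Finset.mem_erase.mpr ⟨one_ne_zero, (mem_Po.mp h1Po).1⟩⟩
    set S := supp Q P' with hSd
    set q := qm Q (Po b1 P') hPo with hq
    have hq0 : ∀ v, 0 ≤ q v := by
      intro v
      have h2 := le_qm hPo v h1Po
      rw [ord_one] at h2
      linarith
    have hGu' : ∀ (v : Q.Pl) (x : L0), x ∈ Submodule.span k (Po b1 P' : Set L0) →
        Q.G v (- q v) x := by
      intro v x hx
      induction hx using Submodule.span_induction with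
      | mem x hx =>
        intro hx0
        exact le_qm hPo v hx
      | zero => exact G_zero
      | add x y _ _ hx hy => exact G_add hx hy
      | smul c x _ hx =>
        rw [Algebra.smul_def]
        simpa using G_mul (G_alg (Q := Q) (v := v) c) hx
    have hGu : ∀ v, Q.G v (- q v) u := fun v => hGu' v u huP
    have hu0 : u ≠ 0 := by
      have := huc 0
      rwa [map_zero] at this
    have hpole : ∀ v, Q.pole v u ≤ q v := by
      intro v
      rw [pole_of_ne hu0]
      apply max_le (hq0 v)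
      have := hGu v hu0
      linarith
    have hout : ∀ v, v ∉ S → Q.pole v u = 0 := by
      intro v hv
      have h2 := hpole v
      rw [hq, qm_zero hPo Po_unit v hv] at h2
      exact le_antisymm h2 (pole_nonneg v u)
    have hΛ := hQ S hout
    have hsum : ∑ v ∈ S, Q.wt v * Q.pole v u ≤ Hq Q S q := by
      unfold Hq
      exact Finset.sum_le_sum fun v _ => mul_le_mul_of_nonneg_left (hpole v) (Q.wt_nonneg v)
    have hsum0 : 0 < ∑ v ∈ S, Q.wt v * Q.pole v u := by
      obtain ⟨v, hv⟩ : ∃ v, Q.ord v u < 0 := by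
        by_contra h
        push Not at h
        obtain ⟨c, hc⟩ := Q.const u hu0 h
        exact huc c hc.symm
      have hpv : 1 ≤ Q.pole v u := by
        rw [pole_of_ne hu0]
        have := le_max_right 0 (- Q.ord v u)
        linarith
      have hvS : v ∈ S := by
        by_contra h
        rw [hout v h] at hpv
        norm_num at hpv
      have h2 : Q.wt v * Q.pole v u ≤ ∑ v ∈ S, Q.wt v * Q.pole v u :=
        Finset.single_le_sum (f := fun v => Q.wt v * Q.pole v u)
          (fun v _ => mul_nonneg (Q.wt_nonneg v) (pole_nonneg v u)) hvS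
      have h3 : 1 * 1 ≤ Q.wt v * Q.pole v u :=
        mul_le_mul (Q.wt_one v) hpv (by norm_num) (Q.wt_nonneg v)
      linarith
    have hn0 : Module.finrank (RatFunc k) L0 ≤ n :=
      le_trans (Submodule.finrank_le L0.toSubalgebra.toSubmodule) hn
    have hn0' : (Module.finrank (RatFunc k) L0 : ℤ) ≤ n := by exact_mod_cast hn0
    have hΛ' : Q.lossT ≤ 2 * n * Hq Q S q := by
      refine hΛ.trans ?_
      apply mul_le_mul _ hsum hsum0.le (by positivity)
      linarith
    have hres := rat_large (Q := Q) hst1 n1 hP0 hPo n2 (lt_of_lt_of_le hsum0 hsum) hΛ'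
    omega

/-- The bound for stable sets over an extension of `k(t)` of bounded degree. -/
theorem rat_core (halg : ∀ x : L, IsAlgebraic k x → ∃ c : k, algebraMap k L c = x)
    {n e d : ℕ} (hn : Module.finrank (RatFunc k) L ≤ n) (hed : 26 * n * (e + 1) ^ 6 ≤ d)
    {A : L} {a b : L[X]} {P : Finset L} (hst : StabR e d A a b P)
    (hiso : ¬ ∃ y : L, y ≠ 0 ∧ (∃ a0 : k[X], a0.map (algebraMap k L) = sa d A y a) ∧
      ∃ b0 : k[X], b0.map (algebraMap k L) = sb d A y b) :
    P.card ≤ (d + e) * (d + e) + (1 + e + e * d) := by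
  classical
  have hn1 : 1 ≤ n := le_trans Module.finrank_pos hn
  obtain ⟨n1, n2⟩ := numericR n e d hn1 hed
  refine (card_le_P1 hst (by omega)).trans ?_
  apply Nat.add_le_add_right
  rcases (P1 d A a b P).eq_empty_or_nonempty with h | ⟨z0, hz0⟩
  · rw [h, Finset.card_empty]
    exact Nat.zero_le _
  · have hz0o := (mem_P1.mp hz0).1
    have hz00 : z0 ≠ 0 := (mem_Po.mp hz0o).2.1
    rw [← card_P1_scal hst.hA hz00]
    apply rat_core_norm halg hn hed (stabR_scal hst hz00)
    · rw [mem_Po_scal hst.hA hz00, mul_one]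
      exact hz0o
    · rintro ⟨y, hy, h1, h2⟩
      rw [sa_sa] at h1
      rw [sb_sb] at h2
      exact hiso ⟨z0 * y, mul_ne_zero hz00 hy, h1, h2⟩

end Core

end Pool.Agent.W277.UE
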