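import Mathlib
import Pool.Agent.W277.UE.R4

/-!
# Rational maps with a gap: the final theorem
-/

namespace Pool.Agent.W277.UE

open Finset Polynomial Pool.Agent.W277.UB Pool.Agent.W277.UC Pool.Agent.W277.UD PlaceData
  IntermediateField

open Classical in
/-- The self-map of the projective line `L ∪ {∞}` given by `p / q`, where `deg p > deg q`. -/
noncomputable def rmap {L : Type*} [Field L] (p q : L[X]) (z : Option L) : Option L :=
  z.elim none fun x => if q.eval x = 0 then none else some (p.eval x / q.eval x)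

/-- Uniform boundedness for rational maps with a gap over all extensions of `k(t)` of degree at
most `n`. -/
theorem rat_strong (k L : Type*) [Field k] [CharZero k] [Field L] [Algebra k L] (t : L)
    (ht : Transcendental k t) [FiniteDimensional (IntermediateField.adjoin k {t}) L]
    (n e d : ℕ) (hn : Module.finrank (IntermediateField.adjoin k {t}) L ≤ n)
    (hd : 26 * n * (e + 1) ^ 6 ≤ d) (p q : L[X]) (A : L) (hA : A ≠ 0)
    (hp : (p - C A * X ^ d).natDegree ≤ e) (hq : q.natDegree ≤ e) (hq0 : q ≠ 0)
    (hiso : ¬ ∃ y c : L, y ≠ 0 ∧ c ≠ 0 ∧ (∀ j, IsAlgebraic k ((C c * p.comp (C y * X)).coeff j)) ∧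
      ∀ j, IsAlgebraic k ((C (c * y) * q.comp (C y * X)).coeff j)) :
    {z : Option L | (Set.range fun m : ℕ => (rmap p q)^[m] z).Finite}.encard ≤
      (((d + e) ^ 2 + (d + 1) * e + 2 : ℕ) : ℕ∞) := by
  classical
  obtain ⟨inst, hst, hfin, hle⟩ := exists_ratAlg k L t ht
  have : CharZero (algebraicClosure k L) := charZero_of_injective_algebraMap
    (algebraMap k (algebraicClosure k L)).injective
  have halg : ∀ x : L, IsAlgebraic (algebraicClosure k L) x →
      ∃ c : algebraicClosure k L, algebraMap (algebraicClosure k L) L c = x := by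
    intro y hy
    have h1 : IsAlgebraic k y := hy.restrictScalars k
    exact ⟨⟨y, h1.isIntegral⟩, rfl⟩
  set a : L[X] := p - C A * X ^ d with ha
  have hiso1 : ¬ ∃ y : L, y ≠ 0 ∧ (∃ a0 : (algebraicClosure k L)[X],
      a0.map (algebraMap (algebraicClosure k L) L) = sa d A y a) ∧
      ∃ b0 : (algebraicClosure k L)[X],
        b0.map (algebraMap (algebraicClosure k L) L) = sb d A y q := by
    rintro ⟨y, hy, ⟨a0, ha0⟩, ⟨b0, hb0⟩⟩
    have hAy : A * y ^ d ≠ 0 := mul_ne_zero hA (pow_ne_zero _ hy)
    refine hiso ⟨y, (A * y ^ d)⁻¹, hy, inv_ne_zero hAy, fun j => ?_, fun j => ?_⟩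
    · have h1 : C (A * y ^ d)⁻¹ * p.comp (C y * X) = sa d A y a + X ^ d := by
        have h2 : p = a + C A * X ^ d := by
          rw [ha]
          ring
        rw [h2]
        unfold sa
        rw [add_comp, mul_comp, C_comp, X_pow_comp, mul_pow, mul_add]
        congr 1
        rw [← C_pow, ← mul_assoc, ← mul_assoc, ← C_mul, ← C_mul]
        have h3 : (A * y ^ d)⁻¹ * A * y ^ d = 1 := by
          rw [mul_assoc]
          exact inv_mul_cancel₀ hAy
        rw [h3, C_1, one_mul]
      rw [h1, ← ha0]
      have h4 : a0.map (algebraMap (algebraicClosure k L) L) + X ^ d =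
          (a0 + X ^ d).map (algebraMap (algebraicClosure k L) L) := by simp
      rw [h4, coeff_map]
      exact mem_algebraicClosure_iff.mp ((a0 + X ^ d).coeff j).2
    · have h1 : C ((A * y ^ d)⁻¹ * y) * q.comp (C y * X) = sb d A y q := by
        unfold sb
        rw [mul_comm y]
      rw [h1, ← hb0, coeff_map]
      exact mem_algebraicClosure_iff.mp (b0.coeff j).2
  set B : ℕ := (d + e) ^ 2 + (d + 1) * e + 2 with hB
  by_contra hcon
  push Not at hcon
  obtain ⟨T, hTs, hT⟩ := Set.exists_subset_encard_eq (Order.add_one_le_of_lt hcon)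
  have hTf : T.Finite := by
    apply Set.finite_of_encard_eq_coe (k := B + 1)
    rw [hT]
    norm_cast
  lift T to Finset (Option L) using hTf
  have hUf : (⋃ z ∈ T, (Set.range fun m : ℕ => (rmap p q)^[m] z)).Finite :=
    T.finite_toSet.biUnion fun z hz => hTs hz
  set U : Finset (Option L) := hUf.toFinset with hU
  have hmemU : ∀ w, w ∈ U ↔ ∃ z ∈ T, ∃ m : ℕ, (rmap p q)^[m] z = w := by
    intro w
    rw [hU, Set.Finite.mem_toFinset, Set.mem_iUnion₂]
    simp only [Set.mem_range, exists_prop]
  set P : Finset L := U.eraseNone with hP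
  have hmemP : ∀ x, x ∈ P ↔ some x ∈ U := fun x => Finset.mem_eraseNone
  have hev : ∀ x, p.eval x = A * x ^ d + a.eval x := by
    intro x
    have h2 : p = C A * X ^ d + a := by
      rw [ha]
      ring
    conv_lhs => rw [h2]
    simp
  have hstP : StabR e d A a q P := by
    refine ⟨hA, hp, hq, hq0, ?_⟩
    intro x hx hqx
    rw [hmemP, hmemU] at hx ⊢
    obtain ⟨z, hz, m, hm⟩ := hx
    refine ⟨z, hz, m + 1, ?_⟩
    rw [Function.iterate_succ_apply', hm]
    unfold rmap ww
    rw [Option.elim_some, if_neg hqx, hev]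
  have h1 := rat_core (k := algebraicClosure k L) halg (hle.trans hn) hd hstP hiso1
  have h2 : T ⊆ insert none (P.image some) := by
    intro z hz
    cases z with
    | none => exact Finset.mem_insert_self _ _
    | some x =>
      apply Finset.mem_insert_of_mem
      refine Finset.mem_image.mpr ⟨x, ?_, rfl⟩
      rw [hmemP, hmemU]
      exact ⟨_, hz, 0, rfl⟩
  have h3 := Finset.card_le_card h2
  have h4 := Finset.card_insert_le none (P.image some)
  have h5 : (P.image some).card ≤ P.card := Finset.card_image_le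
  rw [Set.encard_coe_eq_coe_finsetCard] at hT
  have h6 : T.card = B + 1 := by
    exact_mod_cast hT
  have h7 : B = (d + e) * (d + e) + (1 + e + e * d) + 1 := by
    rw [hB]
    ring
  omega

end Pool.Agent.W277.UE
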